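import Pool.Agent.Helper35.CB.Final
import Pool.Agent.Helper83.Rel.Harm

/-!
# T-REL: from a homogeneous prime ideal with dense rational zeros to the scheme form
-/

set_option autoImplicit false

namespace Pool.Agent.Helper35.Rel

open NumberField Pool.Agent.Helper4.CB Pool.Agent.Helper16.CB
open AlgebraicGeometry CategoryTheory Pool.Agent.Helper15
open Pool.Agent.Helper65.CB Pool.Agent.Helper33.CB Pool.Agent.Helper69.CB Pool.Agent.Helper10.TRI
open Pool.Agent.Helper35.CB Pool.Agent.Helper83.Rel

/-- the scheme form over `K` itself -/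
theorem scheme_form (K : Type) [Field K] [NumberField K] (A : Type) [CommRing A] [Algebra K A]
    (r : ℕ) (a b : Fin r → A) (J : ℕ)
    (hd : ∀ f : A, f ≠ 0 → ∃ φ : A →ₐ[K] K, φ f ≠ 0 ∧ ∀ i, HS K J (φ (a i)) (φ (b i)))
    (X : Scheme.{0}) (s : X ⟶ Spec (CommRingCat.of K))
    (hX : DominatedOver K X (Spec (CommRingCat.of (ConRing a b))) s
      (Spec.map (CommRingCat.ofHom (algebraMap K (ConRing a b))))) :
    PotentiallyDense K X s :=
  PotentiallyDense.of_dominated hX (end_fam_spec K K A r a b J hd)

section Cone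

variable {K : Type} [Field K] {N : ℕ} (I : Ideal (MvPolynomial (Fin N) K))

/-- `t` is a zero of `I` -/
def IsZero (t : Fin N → K) : Prop := ∀ g ∈ I, MvPolynomial.eval t g = 0

/-- the homogeneous ideal `I` has a dense set of `K`-rational zeros: `T = V(I)` in the projective
space has dense `K`-points -/
def DenseZeros : Prop :=
  ∀ (d : ℕ) (f : MvPolynomial (Fin N) K), f.IsHomogeneous d → f ∉ I →
    ∃ t : Fin N → K, IsZero I t ∧ MvPolynomial.eval t f ≠ 0

theorem eval_scale {g : MvPolynomial (Fin N) K} {i : ℕ} (hg : g.IsHomogeneous i) (l : K)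
    (t : Fin N → K) :
    MvPolynomial.eval (fun j => l * t j) g = l ^ i * MvPolynomial.eval t g := by
  rw [MvPolynomial.eval_eq, MvPolynomial.eval_eq, Finset.mul_sum]
  refine Finset.sum_congr rfl fun m hm => ?_
  have h1 : ∑ j ∈ m.support, m j = i := by
    have := hg (MvPolynomial.mem_support_iff.1 hm)
    rw [Finsupp.weight_apply] at this
    simpa [Finsupp.sum] using this
  have h2 : ∏ j ∈ m.support, (l * t j) ^ m j = l ^ i * ∏ j ∈ m.support, t j ^ m j := by
    rw [← h1, ← Finset.prod_pow_eq_pow_sum, ← Finset.prod_mul_distrib]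
    exact Finset.prod_congr rfl fun j _ => mul_pow _ _ _
  rw [h2]
  ring

/-- the cone over `T` has dense points -/
theorem dense_cone [CharZero K] (hI : ∀ f ∈ I, ∀ d : ℕ, MvPolynomial.homogeneousComponent d f ∈ I)
    (hd : DenseZeros I) (f : MvPolynomial (Fin N) K ⧸ I) (hf : f ≠ 0) :
    ∃ φ : (MvPolynomial (Fin N) K ⧸ I) →ₐ[K] K, φ f ≠ 0 := by
  obtain ⟨F, rfl⟩ := Ideal.Quotient.mk_surjective f
  have hF : F ∉ I := fun h => hf (Ideal.Quotient.eq_zero_iff_mem.2 h)
  obtain ⟨d, hdF⟩ : ∃ d, MvPolynomial.homogeneousComponent d F ∉ I := by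
    by_contra h
    push Not at h
    apply hF
    rw [← MvPolynomial.sum_homogeneousComponent F]
    exact Ideal.sum_mem _ fun i _ => h i
  obtain ⟨t, ht, htF⟩ := hd d _ (MvPolynomial.homogeneousComponent_isHomogeneous d F) hdF
  -- scaling
  let q : Polynomial K := ∑ i ∈ Finset.range (F.totalDegree + 1),
    Polynomial.C (MvPolynomial.eval t (MvPolynomial.homogeneousComponent i F)) * Polynomial.X ^ i
  have hdr : d ∈ Finset.range (F.totalDegree + 1) := by
    rw [Finset.mem_range]
    by_contra h
    apply hdF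
    rw [MvPolynomial.homogeneousComponent_eq_zero _ _ (by omega)]
    exact I.zero_mem
  have hq : q ≠ 0 := by
    intro h0
    apply htF
    have h1 : q.coeff d = 0 := by rw [h0, Polynomial.coeff_zero]
    rw [Polynomial.finsetSum_coeff, Finset.sum_eq_single d, Polynomial.coeff_C_mul_X_pow,
      if_pos rfl] at h1
    · exact h1
    · intro i _ hid
      rw [Polynomial.coeff_C_mul_X_pow, if_neg (fun h => hid h.symm)]
    · intro h
      exact absurd hdr h
  obtain ⟨l, hl⟩ : ∃ l, q.eval l ≠ 0 := by
    by_contra h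
    push Not at h
    exact hq (Polynomial.funext fun x => by rw [h x, Polynomial.eval_zero])
  have hz : ∀ g ∈ I, MvPolynomial.aeval (fun j => l * t j) g = 0 := by
    intro g hg
    rw [MvPolynomial.aeval_eq_eval]
    rw [← MvPolynomial.sum_homogeneousComponent g, map_sum]
    refine Finset.sum_eq_zero fun i _ => ?_
    rw [eval_scale (MvPolynomial.homogeneousComponent_isHomogeneous i g), ht _ (hI g hg i),
      mul_zero]
  refine ⟨Ideal.Quotient.liftₐ I (MvPolynomial.aeval (fun j => l * t j)) hz, ?_⟩
  change MvPolynomial.aeval (fun j => l * t j) F ≠ 0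
  rw [MvPolynomial.aeval_eq_eval]
  intro h0
  apply hl
  rw [← h0]
  conv_rhs => rw [← MvPolynomial.sum_homogeneousComponent F]
  rw [map_sum, Polynomial.eval_finsetSum]
  refine Finset.sum_congr rfl fun i _ => ?_
  rw [eval_scale (MvPolynomial.homogeneousComponent_isHomogeneous i F), Polynomial.eval_mul,
    Polynomial.eval_C, Polynomial.eval_pow, Polynomial.eval_X, mul_comm]

/-- the coordinates generate -/
theorem gen_quot : Algebra.adjoin K
    (Set.range fun l => Ideal.Quotient.mk I (MvPolynomial.X l : MvPolynomial (Fin N) K)) = ⊤ := by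
  have h1 : (Set.range fun l => Ideal.Quotient.mk I (MvPolynomial.X l)) =
      (Ideal.Quotient.mkₐ K I) '' Set.range (MvPolynomial.X : Fin N → MvPolynomial (Fin N) K) := by
    rw [← Set.range_comp]
    rfl
  rw [h1, Algebra.adjoin_image, MvPolynomial.adjoin_range_X, Algebra.map_top,
    AlgHom.range_eq_top]
  exact Ideal.Quotient.mkₐ_surjective K I

end Cone

end Pool.Agent.Helper35.Rel
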